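import Pool.Agent.H987.Y.StB

/-! Slabs in the lattice. -/

set_option autoImplicit false

open scoped BigOperators
open MeasureTheory

namespace Pool.Agent.H578.Y987

open Pool.Agent.H987.Y

section arith

variable {m s b i : ℤ}

theorem ar1 (hm : 0 < m) (hi : 0 ≤ i) (his : i < s) :
    0 ≤ i * m + b % m ∧ i * m + b % m < m * s := by
  have h1 := Int.emod_nonneg b hm.ne'
  have h2 := Int.emod_lt_of_pos b hm
  constructor
  · positivity
  · nlinarith

theorem ar_div (hm : 0 < m) (hi : 0 ≤ i) (his : i < s) :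
    (b / m * (m * s) + i * m + b % m) / (m * s) = b / m := by
  obtain ⟨h1, h2⟩ := ar1 (b := b) hm hi his
  have hs : 0 < s := by omega
  have e : b / m * (m * s) + i * m + b % m = (i * m + b % m) + (m * s) * (b / m) := by ring
  rw [e, Int.add_mul_ediv_left _ _ (mul_pos hm hs).ne', Int.ediv_eq_zero_of_lt h1 h2, zero_add]

theorem ar_mod (hm : 0 < m) (hi : 0 ≤ i) (his : i < s) :
    (b / m * (m * s) + i * m + b % m) % (m * s) / m = i := by
  obtain ⟨h1, h2⟩ := ar1 (b := b) hm hi his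
  have e : b / m * (m * s) + i * m + b % m = (i * m + b % m) + (m * s) * (b / m) := by ring
  rw [e, Int.add_mul_emod_self_left, Int.emod_eq_of_lt h1 h2]
  have e2 : i * m + b % m = b % m + m * i := by ring
  rw [e2, Int.add_mul_ediv_left _ _ hm.ne', Int.ediv_eq_zero_of_lt (Int.emod_nonneg b hm.ne')
    (Int.emod_lt_of_pos b hm), zero_add]

theorem ar_rem : (b / m * (m * s) + i * m + b % m) % m = b % m := by
  have e : b / m * (m * s) + i * m + b % m = b % m + m * (b / m * s + i) := by ring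
  rw [e, Int.add_mul_emod_self_left, Int.emod_emod]

theorem br_div (hm : 0 < m) (c : ℤ) : (c / (m * s) * m + c % m) / m = c / (m * s) := by
  have e : c / (m * s) * m + c % m = c % m + m * (c / (m * s)) := by ring
  rw [e, Int.add_mul_ediv_left _ _ hm.ne', Int.ediv_eq_zero_of_lt (Int.emod_nonneg c hm.ne')
    (Int.emod_lt_of_pos c hm), zero_add]

theorem br_mod (c : ℤ) : (c / (m * s) * m + c % m) % m = c % m := by
  have e : c / (m * s) * m + c % m = c % m + m * (c / (m * s)) := by ring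
  rw [e, Int.add_mul_emod_self_left, Int.emod_emod]

theorem br_all (c : ℤ) : c / (m * s) * (m * s) + c % (m * s) / m * m + c % m = c := by
  have h1 := Int.emod_add_mul_ediv c (m * s)
  have h2 := Int.emod_add_mul_ediv (c % (m * s)) m
  rw [Int.emod_emod_of_dvd c (dvd_mul_right m s)] at h2
  linear_combination h1 + h2

end arith

section lat

variable {d K m s : ℕ}

/-- the cell -/
def cell (m s : ℕ) (β : Lt (d + 1)) (i : Fin s) : Lt (d + 1) := fun k =>
  if k = 0 then β 0 / m * (m * s) + (i : ℕ) * m + β 0 % m else β k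

/-- the parametrization -/
def Psi (K m s : ℕ) (β : Lt (d + 1)) (i : Fin s) (r : Fin (d + 1) → ZMod K) : Lt (d + 1) := fun k =>
  K * cell m s β i k + ((r k).val : ℤ)

/-- its inverse -/
def Inv (K : ℕ) (hm : 0 < m) (hs : 0 < s) (X : Lt (d + 1)) :
    Lt (d + 1) × Fin s × (Fin (d + 1) → ZMod K) :=
  (fun k => if k = 0 then X 0 / K / (m * s) * m + X 0 / K % m else X k / K,
    ⟨(X 0 / K % (m * s) / m).toNat, by
      have hm' : (0 : ℤ) < m := by exact_mod_cast hm
      have hs' : (0 : ℤ) < s := by exact_mod_cast hs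
      have h1 := Int.emod_nonneg (X 0 / K) (mul_pos hm' hs').ne'
      have h2 := Int.emod_lt_of_pos (X 0 / K) (mul_pos hm' hs')
      have h3 : X 0 / K % (m * s) / m < s := Int.ediv_lt_of_lt_mul hm' (by rw [mul_comm (s : ℤ)]; exact h2)
      have h4 : 0 ≤ X 0 / K % (m * s) / m := Int.ediv_nonneg h1 hm'.le
      omega⟩,
    fun k => ((X k : ℤ) : ZMod K))

variable [NeZero K]

theorem val_lt (r : ZMod K) : ((r.val : ℕ) : ℤ) < K := by exact_mod_cast ZMod.val_lt r

theorem K_pos : (0 : ℤ) < K := by exact_mod_cast Nat.pos_of_ne_zero (NeZero.ne K)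

theorem Psi_div (β : Lt (d + 1)) (i : Fin s) (r : Fin (d + 1) → ZMod K) (k : Fin (d + 1)) :
    Psi K m s β i r k / K = cell m s β i k := by
  unfold Psi
  rw [add_comm, Int.add_mul_ediv_left _ _ (K_pos (K := K)).ne',
    Int.ediv_eq_zero_of_lt (Int.natCast_nonneg _) (val_lt _), zero_add]

theorem Psi_cast (β : Lt (d + 1)) (i : Fin s) (r : Fin (d + 1) → ZMod K) (k : Fin (d + 1)) :
    ((Psi K m s β i r k : ℤ) : ZMod K) = r k := by
  unfold Psi
  push_cast
  rw [ZMod.natCast_self, zero_mul, zero_add, ZMod.natCast_zmod_val]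

theorem inv_left (hm : 0 < m) (hs : 0 < s) (β : Lt (d + 1)) (i : Fin s) (r : Fin (d + 1) → ZMod K) :
    Inv K hm hs (Psi K m s β i r) = (β, i, r) := by
  have hm' : (0 : ℤ) < m := by exact_mod_cast hm
  have hi : ((i : ℕ) : ℤ) < s := by exact_mod_cast i.2
  have hi0 : (0 : ℤ) ≤ ((i : ℕ) : ℤ) := Int.natCast_nonneg _
  unfold Inv
  simp only [Psi_div, Psi_cast]
  refine Prod.ext ?_ (Prod.ext ?_ rfl)
  · funext k
    show (if k = 0 then cell m s β i 0 / (m * s) * m + cell m s β i 0 % m else cell m s β i k) = β k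
    by_cases hk : k = 0
    · rw [if_pos hk, hk]
      unfold cell
      rw [if_pos rfl, ar_div hm' hi0 hi, ar_rem]
      have := Int.emod_add_mul_ediv (β 0) m
      linear_combination this
    · rw [if_neg hk]
      unfold cell
      rw [if_neg hk]
  · apply Fin.ext
    show (cell m s β i 0 % (m * s) / m).toNat = i
    unfold cell
    rw [if_pos rfl, ar_mod hm' hi0 hi, Int.toNat_natCast]

theorem Inv_snd (hm : 0 < m) (hs : 0 < s) (X : Lt (d + 1)) :
    (((Inv K hm hs X).2.1 : ℕ) : ℤ) = X 0 / K % (m * s) / m := by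
  have hm' : (0 : ℤ) < m := by exact_mod_cast hm
  have hs' : (0 : ℤ) < s := by exact_mod_cast hs
  exact Int.toNat_of_nonneg (Int.ediv_nonneg (Int.emod_nonneg (X 0 / K) (mul_pos hm' hs').ne') hm'.le)

theorem inv_right (hm : 0 < m) (hs : 0 < s) (X : Lt (d + 1)) :
    Psi K m s (Inv K hm hs X).1 (Inv K hm hs X).2.1 (Inv K hm hs X).2.2 = X := by
  have hm' : (0 : ℤ) < m := by exact_mod_cast hm
  funext k
  have hv : (((Inv K hm hs X).2.2 k).val : ℤ) = X k % K := ZMod.val_intCast (X k)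
  have hf : ∀ k, (Inv K hm hs X).1 k =
      if k = 0 then X 0 / K / (m * s) * m + X 0 / K % m else X k / K := fun _ => rfl
  have hc : cell m s (Inv K hm hs X).1 (Inv K hm hs X).2.1 k = X k / K := by
    unfold cell
    rw [Inv_snd]
    by_cases hk : k = 0
    · rw [if_pos hk, hf, if_pos rfl, br_div hm', br_mod, br_all, hk]
    · rw [if_neg hk, hf, if_neg hk]
  unfold Psi
  rw [hc, hv]
  have := Int.emod_add_mul_ediv (X k) K
  linear_combination this

theorem bij (hm : 0 < m) (hs : 0 < s) :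
    Function.Bijective fun q : Lt (d + 1) × Fin s × (Fin (d + 1) → ZMod K) => Psi K m s q.1 q.2.1 q.2.2 :=
  Function.bijective_iff_has_inverse.mpr ⟨Inv K hm hs, fun q => inv_left hm hs q.1 q.2.1 q.2.2,
    fun X => inv_right hm hs X⟩

theorem per (hm : 0 < m) (v : Lt (d + 1)) : ∃ w : Lt (d + 1), ∀ β i (r : Fin (d + 1) → ZMod K),
    Psi K m s (β + w) i r = Psi K m s β i r + ((K * m * s : ℕ) : ℤ) • v := by
  have hm' : (0 : ℤ) < m := by exact_mod_cast hm
  refine ⟨fun k => if k = 0 then m * v 0 else m * s * v k, fun β i r => ?_⟩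
  funext k
  show K * cell m s _ i k + ((r k).val : ℤ) = (K * cell m s β i k + ((r k).val : ℤ)) + _ * v k
  unfold cell
  by_cases hk : k = 0
  · rw [if_pos hk, if_pos hk, hk]
    simp only [Pi.add_apply, if_true]
    rw [Int.add_mul_ediv_left _ _ hm'.ne', Int.add_mul_emod_self_left]
    push_cast
    ring
  · rw [if_neg hk, if_neg hk]
    simp only [Pi.add_apply, if_neg hk]
    push_cast
    ring

theorem rng (hm : 0 < m) (hs : 0 < s) (β : Lt (d + 1)) (i i' : Fin s) (r r' : Fin (d + 1) → ZMod K)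
    (k : Fin (d + 1)) : |Psi K m s β i r k - Psi K m s β i' r' k| ≤ ((2 * K * m * s : ℕ) : ℤ) := by
  have hm' : (1 : ℤ) ≤ m := by exact_mod_cast hm
  have hs' : (1 : ℤ) ≤ s := by exact_mod_cast hs
  have hK := K_pos (K := K)
  have h1 := val_lt (r k)
  have h2 := val_lt (r' k)
  have h3 : (0 : ℤ) ≤ ((r k).val : ℤ) := Int.natCast_nonneg _
  have h4 : (0 : ℤ) ≤ ((r' k).val : ℤ) := Int.natCast_nonneg _
  have hi : ((i : ℕ) : ℤ) < s := by exact_mod_cast i.2
  have hi0 : (0 : ℤ) ≤ ((i : ℕ) : ℤ) := Int.natCast_nonneg _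
  have hi' : ((i' : ℕ) : ℤ) < s := by exact_mod_cast i'.2
  have hi0' : (0 : ℤ) ≤ ((i' : ℕ) : ℤ) := Int.natCast_nonneg _
  have hms : (1 : ℤ) ≤ m * s := by nlinarith
  have hKms : (K : ℤ) ≤ K * (m * s) := by nlinarith
  have e : Psi K m s β i r k - Psi K m s β i' r' k = (K : ℤ) * (cell m s β i k - cell m s β i' k) +
      (((r k).val : ℤ) - ((r' k).val : ℤ)) := by unfold Psi; ring
  have hc : |cell m s β i k - cell m s β i' k| ≤ m * s := by
    unfold cell
    by_cases hk : k = 0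
    · rw [if_pos hk, if_pos hk]
      have : β 0 / (m : ℤ) * (m * s) + ((i : ℕ) : ℤ) * m + β 0 % m -
          (β 0 / (m : ℤ) * (m * s) + ((i' : ℕ) : ℤ) * m + β 0 % m) = (((i : ℕ) : ℤ) - ((i' : ℕ) : ℤ)) * m := by ring
      rw [this, abs_le]
      constructor <;> nlinarith
    · rw [if_neg hk, if_neg hk, sub_self, abs_zero]; linarith
  rw [e]
  refine (abs_add_le _ _).trans ?_
  rw [abs_mul, abs_of_pos hK]
  have h5 : (K : ℤ) * |cell m s β i k - cell m s β i' k| ≤ K * (m * s) := mul_le_mul_of_nonneg_left hc hK.le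
  have h6 : |((r k).val : ℤ) - ((r' k).val : ℤ)| ≤ K := by rw [abs_le]; constructor <;> linarith
  push_cast
  nlinarith

/-- the depth -/
def dep (m : ℕ) (β : Lt (d + 1)) : ℕ := (min (β 0 % m) (m - 1 - β 0 % m)).toNat

theorem step (hm : 0 < m) (β : Lt (d + 1)) (i : Fin s) (r : Fin (d + 1) → ZMod K) (v : Lt (d + 1))
    (h1 : 1 ≤ dep m β) (hv : ∀ k, |v k| < (K : ℤ)) :
    ∃ β', Psi K m s β i r + v = Psi K m s β' i (fun k => r k + ((v k : ℤ) : ZMod K)) ∧
      dep m β ≤ dep m β' + 1 := by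
  have hm' : (0 : ℤ) < m := by exact_mod_cast hm
  have hK := K_pos (K := K)
  set a : Lt (d + 1) := fun k => (((r k).val : ℤ) + v k) / K with ha
  have ha1 : ∀ k, -1 ≤ a k ∧ a k ≤ 1 := by
    intro k
    have h2 := val_lt (r k)
    have h3 : (0 : ℤ) ≤ ((r k).val : ℤ) := Int.natCast_nonneg _
    have h4 := abs_lt.mp (hv k)
    constructor
    · show -1 ≤ (((r k).val : ℤ) + v k) / K
      rw [Int.le_ediv_iff_mul_le hK]; linarith
    · show (((r k).val : ℤ) + v k) / K ≤ 1
      have : (((r k).val : ℤ) + v k) / K < 2 := by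
        rw [Int.ediv_lt_iff_lt_mul hK]; linarith
      omega
  have hrem : ∀ k, ((r k + ((v k : ℤ) : ZMod K)).val : ℤ) = (((r k).val : ℤ) + v k) % K := by
    intro k
    have : r k + ((v k : ℤ) : ZMod K) = (((((r k).val : ℤ) + v k) : ℤ) : ZMod K) := by
      push_cast
      rw [ZMod.natCast_zmod_val]
    rw [this, ZMod.val_intCast]
  have hd : 1 ≤ min (β 0 % (m : ℤ)) (m - 1 - β 0 % m) := by
    unfold dep at h1; omega
  have hd1 : 1 ≤ β 0 % (m : ℤ) := le_trans hd (min_le_left _ _)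
  have hd2 : 1 ≤ m - 1 - β 0 % (m : ℤ) := le_trans hd (min_le_right _ _)
  obtain ⟨b1, b2⟩ := ha1 0
  have hdecomp := Int.emod_add_mul_ediv (β 0) m
  have hmod : (β 0 + a 0) % m = β 0 % m + a 0 := by
    have : β 0 + a 0 = (β 0 % m + a 0) + m * (β 0 / m) := by linear_combination -hdecomp
    rw [this, Int.add_mul_emod_self_left]
    exact Int.emod_eq_of_lt (by linarith) (by linarith)
  have hdiv : (β 0 + a 0) / m = β 0 / m := by
    have : β 0 + a 0 = (β 0 % m + a 0) + m * (β 0 / m) := by linear_combination -hdecomp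
    rw [this, Int.add_mul_ediv_left _ _ hm'.ne', Int.ediv_eq_zero_of_lt (by linarith) (by linarith), zero_add]
  refine ⟨β + a, ?_, ?_⟩
  · funext k
    show K * cell m s β i k + ((r k).val : ℤ) + v k = K * cell m s (β + a) i k + ((r k + ((v k : ℤ) : ZMod K)).val : ℤ)
    rw [hrem]
    have hc : cell m s (β + a) i k = cell m s β i k + a k := by
      unfold cell
      by_cases hk : k = 0
      · rw [if_pos hk, if_pos hk, hk, Pi.add_apply, hmod, hdiv]; ring
      · rw [if_neg hk, if_neg hk, Pi.add_apply]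
    rw [hc]
    have := Int.emod_add_mul_ediv (((r k).val : ℤ) + v k) K
    have ha' : a k = (((r k).val : ℤ) + v k) / K := rfl
    rw [ha']
    linear_combination -this
  · unfold dep
    rw [Pi.add_apply, hmod]
    omega

/-- the boxes -/
noncomputable def box0 (d m s : ℕ) : Finset (Lt (d + 1)) :=
  Fintype.piFinset fun k => if k = 0 then Finset.Ico 0 (m : ℤ) else Finset.Ico 0 ((m * s : ℕ) : ℤ)

noncomputable def boxB (d L m s : ℕ) : Finset (Lt (d + 1)) :=
  Fintype.piFinset fun k => if k = 0 then Finset.Icc (L : ℤ) (m - 1 - L) else Finset.Ico 0 ((m * s : ℕ) : ℤ)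

noncomputable def boxN (d N : ℕ) : Finset (Lt (d + 1)) := Fintype.piFinset fun _ => Finset.Ico 0 (N : ℤ)

theorem mem_box0 {β : Lt (d + 1)} : β ∈ box0 d m s ↔
    (0 ≤ β 0 ∧ β 0 < m) ∧ ∀ k, k ≠ 0 → 0 ≤ β k ∧ β k < ((m * s : ℕ) : ℤ) := by
  unfold box0
  rw [Fintype.mem_piFinset]
  constructor
  · intro h
    refine ⟨?_, fun k hk => ?_⟩
    · have := h 0
      rwa [if_pos rfl, Finset.mem_Ico] at this
    · have := h k
      rwa [if_neg hk, Finset.mem_Ico] at this
  · rintro ⟨h0, h⟩ k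
    by_cases hk : k = 0
    · rw [if_pos hk, Finset.mem_Ico, hk]; exact h0
    · rw [if_neg hk, Finset.mem_Ico]; exact h k hk

theorem mem_boxB {L : ℕ} {β : Lt (d + 1)} : β ∈ boxB d L m s ↔
    ((L : ℤ) ≤ β 0 ∧ β 0 ≤ m - 1 - L) ∧ ∀ k, k ≠ 0 → 0 ≤ β k ∧ β k < ((m * s : ℕ) : ℤ) := by
  unfold boxB
  rw [Fintype.mem_piFinset]
  constructor
  · intro h
    refine ⟨?_, fun k hk => ?_⟩
    · have := h 0
      rwa [if_pos rfl, Finset.mem_Icc] at this
    · have := h k
      rwa [if_neg hk, Finset.mem_Ico] at this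
  · rintro ⟨h0, h⟩ k
    by_cases hk : k = 0
    · rw [if_pos hk, Finset.mem_Icc, hk]; exact h0
    · rw [if_neg hk, Finset.mem_Ico]; exact h k hk

theorem card0 : (box0 d m s).card = m * (m * s) ^ d := by
  unfold box0
  rw [Fintype.card_piFinset, Fin.prod_univ_succ, if_pos rfl, Int.card_Ico]
  have : ∀ k : Fin d, (if (Fin.succ k) = 0 then Finset.Ico 0 (m : ℤ) else
      Finset.Ico 0 ((m * s : ℕ) : ℤ)).card = m * s := by
    intro k
    rw [if_neg (Fin.succ_ne_zero k), Int.card_Ico, sub_zero, Int.toNat_natCast]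
  rw [Finset.prod_congr rfl (fun k _ => this k), Finset.prod_const, Finset.card_univ, Fintype.card_fin]
  simp

theorem cardB {L : ℕ} (h : 2 * L + 1 ≤ m) : (boxB d L m s).card = (m - 2 * L) * (m * s) ^ d := by
  unfold boxB
  rw [Fintype.card_piFinset, Fin.prod_univ_succ, if_pos rfl, Int.card_Icc]
  have : ∀ k : Fin d, (if (Fin.succ k) = 0 then Finset.Icc (L : ℤ) (m - 1 - L) else
      Finset.Ico 0 ((m * s : ℕ) : ℤ)).card = m * s := by
    intro k
    rw [if_neg (Fin.succ_ne_zero k), Int.card_Ico, sub_zero, Int.toNat_natCast]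
  rw [Finset.prod_congr rfl (fun k _ => this k), Finset.prod_const, Finset.card_univ, Fintype.card_fin]
  congr 1
  omega

theorem sum_box (hm : 0 < m) (hs : 0 < s) (f : Lt (d + 1) → ℝ) :
    ∑ X ∈ boxN d (K * m * s), f X =
      ∑ β ∈ box0 d m s, ∑ i : Fin s, ∑ r : Fin (d + 1) → ZMod K, f (Psi K m s β i r) := by
  have hm' : (0 : ℤ) < m := by exact_mod_cast hm
  have hs' : (0 : ℤ) < s := by exact_mod_cast hs
  have hK := K_pos (K := K)
  have e1 : ∑ β ∈ box0 d m s, ∑ i : Fin s, ∑ r : Fin (d + 1) → ZMod K, f (Psi K m s β i r) =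
      ∑ q ∈ (box0 d m s) ×ˢ ((Finset.univ : Finset (Fin s)) ×ˢ (Finset.univ : Finset (Fin (d + 1) → ZMod K))),
        f (Psi K m s q.1 q.2.1 q.2.2) := by
    rw [Finset.sum_product]
    refine Finset.sum_congr rfl fun β _ => ?_
    rw [Finset.sum_product]
  rw [e1]
  refine Finset.sum_nbij' (Inv K hm hs) (fun q => Psi K m s q.1 q.2.1 q.2.2) ?_ ?_ ?_ ?_ ?_
  · intro X hX
    have hX' : ∀ k, 0 ≤ X k ∧ X k < ((K * m * s : ℕ) : ℤ) := by
      intro k
      have := (Fintype.mem_piFinset.mp hX) k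
      rwa [Finset.mem_Ico] at this
    have hc : ∀ k, 0 ≤ X k / K ∧ X k / K < m * s := by
      intro k
      obtain ⟨h1, h2⟩ := hX' k
      refine ⟨Int.ediv_nonneg h1 hK.le, Int.ediv_lt_of_lt_mul hK ?_⟩
      push_cast at h2
      linarith [h2, mul_comm ((m : ℤ) * s) K]
    rw [Finset.mem_product, Finset.mem_product]
    refine ⟨?_, Finset.mem_univ _, Finset.mem_univ _⟩
    rw [mem_box0]
    refine ⟨?_, fun k hk => ?_⟩
    · show 0 ≤ (if (0 : Fin (d + 1)) = 0 then X 0 / K / (m * s) * m + X 0 / K % m else X 0 / K) ∧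
        (if (0 : Fin (d + 1)) = 0 then X 0 / K / (m * s) * m + X 0 / K % m else X 0 / K) < m
      rw [if_pos rfl, Int.ediv_eq_zero_of_lt (hc 0).1 (hc 0).2, zero_mul, zero_add]
      exact ⟨Int.emod_nonneg _ hm'.ne', Int.emod_lt_of_pos _ hm'⟩
    · show 0 ≤ (if k = 0 then X 0 / K / (m * s) * m + X 0 / K % m else X k / K) ∧
        (if k = 0 then X 0 / K / (m * s) * m + X 0 / K % m else X k / K) < ((m * s : ℕ) : ℤ)
      rw [if_neg hk]
      push_cast
      exact hc k
  · rintro ⟨β, i, r⟩ hq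
    rw [Finset.mem_product, mem_box0] at hq
    obtain ⟨⟨⟨h1, h2⟩, h3⟩, -⟩ := hq
    have hi : ((i : ℕ) : ℤ) < s := by exact_mod_cast i.2
    have hi0 : (0 : ℤ) ≤ ((i : ℕ) : ℤ) := Int.natCast_nonneg _
    unfold boxN
    rw [Fintype.mem_piFinset]
    intro k
    rw [Finset.mem_Ico]
    have hr0 : (0 : ℤ) ≤ ((r k).val : ℤ) := Int.natCast_nonneg _
    have hr1 := val_lt (r k)
    have hc : 0 ≤ cell m s β i k ∧ cell m s β i k < m * s := by
      unfold cell
      by_cases hk : k = 0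
      · rw [if_pos hk]
        simp only at h1 h2
        rw [Int.ediv_eq_zero_of_lt h1 h2, zero_mul, zero_add, Int.emod_eq_of_lt h1 h2]
        constructor
        · positivity
        · nlinarith
      · rw [if_neg hk]
        have := h3 k hk
        push_cast at this
        exact this
    show 0 ≤ K * cell m s β i k + ((r k).val : ℤ) ∧ K * cell m s β i k + ((r k).val : ℤ) < ((K * m * s : ℕ) : ℤ)
    push_cast
    obtain ⟨c1, c2⟩ := hc
    constructor
    · positivity
    · have : (cell m s β i k : ℤ) + 1 ≤ m * s := by linarith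
      nlinarith
  · intro X _
    exact inv_right hm hs X
  · rintro ⟨β, i, r⟩ _
    exact inv_left hm hs β i r
  · intro X _
    rw [inv_right hm hs X]

theorem sum_ph {N : ℕ} (f : Lt (d + 1) → ℝ) : ∑ h : Ph (d + 1) N, f (ph h) = ∑ X ∈ boxN d N, f X := by
  refine Finset.sum_bij (fun h _ => ph h) ?_ ?_ ?_ ?_
  · intro h _
    unfold boxN
    rw [Fintype.mem_piFinset]
    intro k
    rw [Finset.mem_Ico]
    have := (h k).2
    show 0 ≤ (((h k : ℕ)) : ℤ) ∧ (((h k : ℕ)) : ℤ) < N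
    omega
  · intro h _ h' _ e
    funext k
    have := congrFun e k
    apply Fin.ext
    have e' : (((h k : ℕ)) : ℤ) = (((h' k : ℕ)) : ℤ) := this
    omega
  · intro X hX
    have hX' : ∀ k, 0 ≤ X k ∧ X k < (N : ℤ) := by
      intro k
      have := (Fintype.mem_piFinset.mp hX) k
      rwa [Finset.mem_Ico] at this
    refine ⟨fun k => ⟨(X k).toNat, by have := hX' k; omega⟩, Finset.mem_univ _, ?_⟩
    funext k
    show (((X k).toNat : ℕ) : ℤ) = X k
    exact Int.toNat_of_nonneg (hX' k).1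
  · intro h _
    rfl

theorem int_unif {C : Type} [Fintype C] [MeasurableSpace C] [MeasurableSingletonClass C] (f : C → ℝ) :
    ∫ h, f h ∂(unif C) = (Fintype.card C : ℝ)⁻¹ * ∑ h, f h := by
  unfold unif
  rw [integral_smul_measure, integral_count, smul_eq_mul, ENNReal.toReal_inv, ENNReal.toReal_natCast]

end lat

/-- **Slabs.** -/
theorem tile : Pool.Agent.H987.Y.S_tile := by
  intro d K s0 L _ η hs0 hη
  obtain ⟨m, hm1, hm2⟩ : ∃ m : ℕ, 2 * L + 1 ≤ m ∧ 2 * (L : ℝ) ≤ η * m := by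
    obtain ⟨m, hm⟩ := exists_nat_ge (2 * (L : ℝ) / η)
    refine ⟨max m (2 * L + 1), le_max_right _ _, ?_⟩
    rw [div_le_iff₀ hη] at hm
    have : (m : ℝ) ≤ ((max m (2 * L + 1) : ℕ) : ℝ) := by exact_mod_cast le_max_left _ _
    nlinarith
  have hm : 0 < m := by omega
  have hK : 0 < K := Nat.pos_of_ne_zero (NeZero.ne K)
  refine ⟨K * m * s0, 2 * K * m * s0, Psi K m s0, dep m, boxB d L m s0, by positivity,
    ⟨m * s0, by ring⟩, bij hm hs0, fun β i r k => Psi_cast β i r k, per hm, fun β i r i' r' k =>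
    rng hm hs0 β i i' r r' k, fun β i r v h1 hv => step hm β i r v h1 hv, ?_, ?_, ?_⟩
  · refine ⟨fun k => if k = 0 then (L : ℤ) else 0, ?_⟩
    rw [mem_boxB]
    refine ⟨⟨by simp, by rw [if_pos rfl]; omega⟩, fun k hk => ?_⟩
    rw [if_neg hk]
    refine ⟨le_rfl, ?_⟩
    have : 0 < m * s0 := Nat.mul_pos hm hs0
    exact_mod_cast this
  · intro β hβ
    rw [mem_boxB] at hβ
    obtain ⟨⟨h1, h2⟩, -⟩ := hβ
    unfold dep
    rw [Int.emod_eq_of_lt (by omega) (by omega)]
    omega
  · intro f U hf0 hfU _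
    have hU : 0 ≤ U := (hf0 0).trans (hfU 0)
    rw [int_unif (fun h : Ph (d + 1) (K * m * s0) => f (ph h)), sum_ph, sum_box hm hs0]
    set F : Lt (d + 1) → ℝ := fun β => ∑ i : Fin s0, ∑ r : Fin (d + 1) → ZMod K, f (Psi K m s0 β i r) with hF
    set c : ℝ := s0 * (K : ℝ) ^ (d + 1) with hc
    have hmR : (0 : ℝ) < m := by exact_mod_cast hm
    have hsR : (0 : ℝ) < s0 := by exact_mod_cast hs0
    have hKR : (0 : ℝ) < K := by exact_mod_cast hK
    have hc0 : 0 < c := by positivity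
    have hF0 : ∀ β, 0 ≤ F β := fun β => Finset.sum_nonneg fun _ _ => Finset.sum_nonneg fun _ _ => hf0 _
    have hFU : ∀ β, F β ≤ c * U := by
      intro β
      have h1 : F β ≤ ∑ i : Fin s0, ∑ r : Fin (d + 1) → ZMod K, U :=
        Finset.sum_le_sum fun _ _ => Finset.sum_le_sum fun _ _ => hfU _
      refine h1.trans (le_of_eq ?_)
      rw [Finset.sum_const, Finset.sum_const, Finset.card_univ, Finset.card_univ, Fintype.card_fin,
        Fintype.card_fun, ZMod.card, Fintype.card_fin, nsmul_eq_mul, nsmul_eq_mul, hc]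
      push_cast; ring
    have hsub : boxB d L m s0 ⊆ box0 d m s0 := by
      intro β hβ
      rw [mem_boxB] at hβ
      rw [mem_box0]
      obtain ⟨⟨h1, h2⟩, h3⟩ := hβ
      exact ⟨⟨by omega, by omega⟩, h3⟩
    set a : ℝ := ((m : ℝ) * s0) ^ d with ha
    have ha0 : 0 < a := by positivity
    have hA0 : ((box0 d m s0).card : ℝ) = m * a := by rw [card0]; push_cast; rfl
    have hAB : ((boxB d L m s0).card : ℝ) = (m - 2 * L) * a := by
      rw [cardB hm1]
      push_cast [Nat.cast_sub (show 2 * L ≤ m by omega)]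
      rfl
    have hmL : (0 : ℝ) < m - 2 * L := by
      have : (2 * L + 1 : ℝ) ≤ m := by exact_mod_cast hm1
      linarith
    have hcard : (Fintype.card (Ph (d + 1) (K * m * s0)) : ℝ) = m * a * c := by
      rw [Fintype.card_fun, Fintype.card_fin, Fintype.card_fin]
      push_cast
      rw [ha, hc, mul_assoc (K : ℝ), mul_pow, pow_succ ((m : ℝ) * s0)]
      ring
    have hsum : ∑ β ∈ box0 d m s0, F β ≤ ∑ β ∈ boxB d L m s0, F β + 2 * L * a * (c * U) := by
      rw [← Finset.sum_sdiff hsub, add_comm]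
      have h1 : ∑ β ∈ box0 d m s0 \ boxB d L m s0, F β ≤ ∑ β ∈ box0 d m s0 \ boxB d L m s0, c * U :=
        Finset.sum_le_sum fun β _ => hFU β
      rw [Finset.sum_const, nsmul_eq_mul, Finset.card_sdiff_of_subset hsub, Nat.cast_sub (Finset.card_le_card hsub),
        hA0, hAB] at h1
      have : (m * a - (m - 2 * L) * a) * (c * U) = 2 * L * a * (c * U) := by ring
      linarith
    rw [hcard, hAB]
    have hSB : 0 ≤ ∑ β ∈ boxB d L m s0, F β := Finset.sum_nonneg fun β _ => hF0 β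
    have h1 : (m * a * c)⁻¹ * ∑ β ∈ box0 d m s0, F β ≤
        (m * a * c)⁻¹ * (∑ β ∈ boxB d L m s0, F β + 2 * L * a * (c * U)) :=
      mul_le_mul_of_nonneg_left hsum (by positivity)
    refine h1.trans ?_
    have h2 : (m * a * c)⁻¹ * (2 * L * a * (c * U)) ≤ η * U := by
      have : (m * a * c)⁻¹ * (2 * L * a * (c * U)) = 2 * L / m * U := by
        field_simp
      rw [this]
      refine mul_le_mul_of_nonneg_right ?_ hU
      rw [div_le_iff₀ hmR]; exact hm2
    have h3 : (m * a * c)⁻¹ * ∑ β ∈ boxB d L m s0, F β ≤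
        (∑ β ∈ boxB d L m s0, F β) / ((m - 2 * L) * a * c) := by
      rw [div_eq_inv_mul]
      refine mul_le_mul_of_nonneg_right ?_ hSB
      refine inv_anti₀ (by positivity) ?_
      have : (m - 2 * L : ℝ) ≤ m := by
        have : (0 : ℝ) ≤ L := Nat.cast_nonneg _
        linarith
      nlinarith [mul_pos ha0 hc0]
    rw [mul_add]
    linarith

end Pool.Agent.H578.Y987
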